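import Pool.Agent.H857.WT.Core
import Pool.Agent.H857.EF.P.S28

/-!
# The formula of Tate for abelian varieties from codimension `m` (W14, helper297)
-/

set_option autoImplicit false
set_option linter.unusedSectionVars false
set_option linter.unusedVariables false

open CategoryTheory AlgebraicGeometry

universe u v w

namespace Pool.Agent.H297.WT

open Polynomial Module Pool.Agent.H914 Pool.Agent.H914.VarClass Pool.Agent.H914.VarClass.Obj
  Pool.Agent.W492.BB Pool.Agent.W484.CH Pool.Agent.Y1.CT Pool.Agent.W550.Corr Pool.Agent.Q70.CT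
  Pool.Agent.W484.HS Pool.Agent.H857.EF Pool.Agent.H857.WT Pool.Agent.H287.EF28

section abs

/-- Choosing a block of entries with given images. -/
theorem pickList {α β : Type*} (f : α → β) (B T : List β) : ∀ L : List α,
    (L.map f).Perm (B ++ T) →
    ∃ E L' : List α, L.Perm (E ++ L') ∧ E.map f = B ∧ (L'.map f).Perm T := by
  induction B with
  | nil =>
    intro L h
    exact ⟨[], L, List.Perm.refl _, rfl, h⟩
  | cons b B ih =>
    intro L h
    rw [List.cons_append] at h
    obtain ⟨e, L₁, h1, h2, h3⟩ := pick f L b (B ++ T) h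
    obtain ⟨E, L', h4, h5, h6⟩ := ih L₁ h3
    refine ⟨e :: E, L', ?_, ?_, h6⟩
    · rw [List.cons_append]
      exact h1.trans (h4.cons e)
    · rw [List.map_cons, h2, h5]

variable {K : Type*} [Field K] {R : Type*} [Ring R] [Algebra K R]
variable {X : Type*} (G : R →ₐ[K] R)

/-- The induction with pairs and blocks. -/
theorem list_gradedM (m : ℕ) (z : X → K) (s : ℕ) (Q : K) (M : ℕ → Submodule K R)
    (h1 : (1 : R) ∈ M 0)
    (hmul : ∀ (i n : ℕ) (a b : R), a ∈ M i → b ∈ M n → a * b ∈ M (i + n)) (U : Set R)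
    (hanti : ∀ a ∈ U, ∀ b ∈ U, a * b = -(b * a))
    (h2 : ∀ a ∈ U, ∀ b ∈ U, ∀ x y, G a = z x ^ s • a → G b = z y ^ s • b → z x * z y = Q →
      a * b ∈ M 1)
    (hm : ∀ E : List (R × X), E.length = 2 * m → (∀ e ∈ E, e.1 ∈ U ∧ G e.1 = z e.2 ^ s • e.1) →
      (E.map (fun e => z e.2)).prod = Q ^ m → (E.map Prod.fst).prod ∈ M m)
    (φ : X → ℂ) (QC : ℂ) (hφ2 : ∀ x y, φ x * φ y = QC → z x * z y = Q)
    (hφm : ∀ E : List X, (E.map φ).prod = QC ^ m → (E.map z).prod = Q ^ m)
    {L₀ : List ℂ} (hL₀ : MatchedM m QC L₀) :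
    ∀ L : List (R × X), (L.map (fun e => φ e.2)).Perm L₀ →
      (∀ e ∈ L, e.1 ∈ U ∧ G e.1 = z e.2 ^ s • e.1) →
      ∃ k : ℕ, (L.map (fun e => z e.2 ^ s)).prod = (Q ^ s) ^ k ∧ (L.map Prod.fst).prod ∈ M k := by
  induction hL₀ with
  | nil =>
    intro L hL _
    have h5 := hL.eq_nil
    rw [List.map_eq_nil_iff] at h5
    subst h5
    exact ⟨0, by simp, by simpa using h1⟩
  | @pair a b L₁ L₂ hab _ hperm ih =>
    intro L hL hU
    obtain ⟨e, L', hp1, he, hL'⟩ := pick (fun e : R × X => φ e.2) L a (b :: L₁) (hL.trans hperm)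
    obtain ⟨e', L'', hp2, he', hL''⟩ := pick (fun e : R × X => φ e.2) L' b L₁ hL'
    have hp : L.Perm (e :: e' :: L'') := hp1.trans (hp2.cons e)
    have he1 := hU e (hp.mem_iff.2 (by simp))
    have he2 := hU e' (hp.mem_iff.2 (by simp))
    obtain ⟨k, hk, hM⟩ := ih L'' hL'' fun x hx => hU x (hp.mem_iff.2 (by simp [hx]))
    have hz : z e.2 * z e'.2 = Q := hφ2 _ _ (by
      change φ e.2 = a at he
      change φ e'.2 = b at he'
      rw [he, he']
      exact hab)
    obtain ⟨r, hr⟩ := prod_perm_anti (K := K) (hp.map Prod.fst) (by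
      intro x hx y hy
      rw [List.mem_map] at hx hy
      obtain ⟨e₁, he₁, rfl⟩ := hx
      obtain ⟨e₂, he₂, rfl⟩ := hy
      exact hanti _ (hU e₁ he₁).1 _ (hU e₂ he₂).1)
    refine ⟨1 + k, ?_, ?_⟩
    · rw [(hp.map (fun e => z e.2 ^ s)).prod_eq, List.map_cons, List.prod_cons, List.map_cons,
        List.prod_cons, hk, ← mul_assoc, ← mul_pow, hz, pow_add, pow_one]
    · rw [hr]
      refine Submodule.smul_mem _ _ ?_
      rw [List.map_cons, List.prod_cons, List.map_cons, List.prod_cons, ← mul_assoc]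
      exact hmul 1 k _ _ (h2 _ he1.1 _ he2.1 _ _ he1.2 he2.2 hz) hM
  | @block B L₁ L₂ hlen hprod _ hperm ih =>
    intro L hL hU
    obtain ⟨E, L', hp, hE, hL'⟩ := pickList (fun e : R × X => φ e.2) B L₁ L (hL.trans hperm)
    have hEU : ∀ e ∈ E, e.1 ∈ U ∧ G e.1 = z e.2 ^ s • e.1 := fun e he =>
      hU e (hp.mem_iff.2 (by simp [he]))
    obtain ⟨k, hk, hM⟩ := ih L' hL' fun x hx => hU x (hp.mem_iff.2 (by simp [hx]))
    have hElen : E.length = 2 * m := by
      rw [← hlen, ← hE, List.length_map]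
    have hz : (E.map (fun e => z e.2)).prod = Q ^ m := by
      have h5 := hφm (E.map Prod.snd) (by
        rw [List.map_map]
        change (E.map (fun e : R × X => φ e.2)).prod = QC ^ m
        rw [hE]
        exact hprod)
      rw [List.map_map] at h5
      exact h5
    have hzs : ∀ E : List (R × X), (E.map (fun e => z e.2 ^ s)).prod =
        (E.map (fun e => z e.2)).prod ^ s := by
      intro E
      induction E with
      | nil => simp
      | cons e E ih =>
        rw [List.map_cons, List.prod_cons, ih, List.map_cons, List.prod_cons, mul_pow]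
    obtain ⟨r, hr⟩ := prod_perm_anti (K := K) (hp.map Prod.fst) (by
      intro x hx y hy
      rw [List.mem_map] at hx hy
      obtain ⟨e₁, he₁, rfl⟩ := hx
      obtain ⟨e₂, he₂, rfl⟩ := hy
      exact hanti _ (hU e₁ he₁).1 _ (hU e₂ he₂).1)
    refine ⟨m + k, ?_, ?_⟩
    · have hq2 : (Q ^ m) ^ s = (Q ^ s) ^ m := by rw [← pow_mul, ← pow_mul, mul_comm]
      rw [(hp.map (fun e => z e.2 ^ s)).prod_eq, List.map_append, List.prod_append, hk, hzs, hz,
        hq2, pow_add]
    · rw [hr]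
      refine Submodule.smul_mem _ _ ?_
      rw [List.map_append, List.prod_append]
      exact hmul m k _ _ (hm E hElen hEU hz) hM

/-- Transport of the roots to the complex numbers. -/
theorem exists_embM (g : ℤ[X]) (hmon : g.Monic) (Q : ℕ) (F : Type*) [Field F] [CharZero F] :
    ∃ φ : RT g F → ℂ,
      (∀ x, aeval (φ x) g = 0) ∧
      (∀ (L : List (RT g F)) (s : ℕ) (c : ℤ),
        (L.map fun x : RT g F => (x : F) ^ s).prod = ((Q : F) ^ s) ^ c →
        (L.map fun x : RT g F => φ x ^ s).prod = ((Q : ℂ) ^ s) ^ c) ∧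
      (∀ x y : RT g F, φ x * φ y = Q → (x : F) * y = Q) ∧
      ∀ (m : ℕ) (L : List (RT g F)), (L.map φ).prod = (Q : ℂ) ^ m →
        (L.map fun x : RT g F => (x : F)).prod = (Q : F) ^ m := by
  classical
  have hmem : ∀ z : F, (∃ p : ℚ[X], p ≠ 0 ∧ aeval z p = 0) → z ∈ algebraicClosure ℚ F := by
    rintro z ⟨p, hp, hz⟩
    rw [mem_algebraicClosure_iff]
    exact ⟨p, hp, hz⟩
  have halg : Algebra.IsAlgebraic ℚ (algebraicClosure ℚ F) := algebraicClosure.isAlgebraic ℚ F
  let j : algebraicClosure ℚ F →ₐ[ℚ] ℂ := IsAlgClosed.lift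
  have hzm : ∀ z : RT g F,
      (z : F) ∈ algebraicClosure ℚ F := by
    rintro ⟨z, i, hi⟩
    refine hmem z ⟨g.map (algebraMap ℤ ℚ), ?_, ?_⟩
    · exact (hmon.map _).ne_zero
    · rw [aeval_map_algebraMap]
      exact hi
  have hz : ∀ z : RT g F,
      aeval (j ⟨z, hzm z⟩) g = 0 := by
    rintro ⟨z, i, hi⟩
    have h2 := Polynomial.hom_eval₂ g (algebraMap ℤ _)
      (j : algebraicClosure ℚ F →+* ℂ) ⟨z, hzm ⟨z, i, hi⟩⟩
    rw [RingHom.ext_int ((j : algebraicClosure ℚ F →+* ℂ).comp (algebraMap ℤ _))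
      (algebraMap ℤ ℂ)] at h2
    have h3 : eval₂ (algebraMap ℤ (algebraicClosure ℚ F)) (⟨z, hzm ⟨z, i, hi⟩⟩ :
        algebraicClosure ℚ F) g = 0 := by
      apply (algebraMap (algebraicClosure ℚ F) F).injective
      rw [map_zero, Polynomial.hom_eval₂, RingHom.ext_int ((algebraMap (algebraicClosure ℚ F)
        F).comp (algebraMap ℤ _)) (algebraMap ℤ F)]
      exact hi
    rw [h3, map_zero] at h2
    exact h2.symm
  refine ⟨fun z => j ⟨z, hzm z⟩, hz, ?_, ?_, ?_⟩
  · intro L s c h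
    have h0 : (L.map (fun z : RT g F =>
        (⟨z, hzm z⟩ : algebraicClosure ℚ F) ^ s)).prod = ((Q : algebraicClosure ℚ F) ^ s) ^ c := by
      apply (algebraMap (algebraicClosure ℚ F) F).injective
      rw [_root_.map_list_prod, List.map_map, map_zpow₀, map_pow, map_natCast]
      exact h
    have h4 := congrArg j h0
    rw [_root_.map_list_prod j, List.map_map, map_zpow₀, map_pow, map_natCast] at h4
    rw [← h4]
    congr 2
    funext z
    change (j ⟨z, hzm z⟩) ^ s = j (⟨z, hzm z⟩ ^ s)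
    rw [map_pow]
  · intro x y h5
    have h6 : (⟨x, hzm x⟩ : algebraicClosure ℚ F) * ⟨y, hzm y⟩ = (Q : algebraicClosure ℚ F) := by
      apply (j : algebraicClosure ℚ F →+* ℂ).injective
      rw [map_mul, map_natCast]
      exact h5
    have h7 := congrArg (algebraMap (algebraicClosure ℚ F) F) h6
    rw [map_mul, map_natCast] at h7
    exact h7
  · intro m L h5
    have h6 : (L.map (fun z : RT g F => (⟨z, hzm z⟩ : algebraicClosure ℚ F))).prod =
        (Q : algebraicClosure ℚ F) ^ m := by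
      apply (j : algebraicClosure ℚ F →+* ℂ).injective
      rw [_root_.map_list_prod, List.map_map, map_pow, map_natCast]
      exact h5
    have h7 := congrArg (algebraMap (algebraicClosure ℚ F) F) h6
    rw [_root_.map_list_prod, List.map_map, map_pow, map_natCast] at h7
    exact h7

end abs

variable {k : Type u} [Field k] {𝒱 : VarClass k} {C : TheoryData.{u, v, 0} 𝒱 ℚ} {K : Type w}
  [Field K] [CharZero K] {H : WeilTheoryData.{u, v, w} C K} [hC : IsChow C] [hH : IsWeil H]
  {A : 𝒱.Obj} (hS : IsStandard H)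

/-- A product of classes of degree one which are eigenvectors. -/
theorem list_deg {X : Type*} (z : X → K) (s : ℕ) (π : A ⟶ A) (E : List (H.A A × X))
    (hE : ∀ e ∈ E, e.1 ∈ (H.gr A 1 : Set (H.A A)) ∧ H.pull π e.1 = z e.2 ^ s • e.1) :
    (E.map Prod.fst).prod ∈ H.gr A (E.length : ℤ) ∧
      H.pull π (E.map Prod.fst).prod =
        (E.map (fun e => z e.2)).prod ^ s • (E.map Prod.fst).prod := by
  induction E with
  | nil =>
    refine ⟨?_, ?_⟩
    · have h1 := clSpan_le_gr (H := H) (A := A) 0 one_mem_clSpan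
      simpa using h1
    · simp
  | cons e E ih =>
    obtain ⟨h1, h2⟩ := ih fun x hx => hE x (List.mem_cons_of_mem _ hx)
    obtain ⟨h3, h4⟩ := hE e List.mem_cons_self
    rw [List.map_cons, List.prod_cons, List.map_cons, List.prod_cons]
    refine ⟨?_, ?_⟩
    · have h5 := H.mul_mem h3 h1
      have h6 : (((e :: E).length : ℕ) : ℤ) = 1 + (E.length : ℤ) := by
        rw [List.length_cons]
        push_cast
        ring
      rw [h6]
      exact h5
    · rw [map_mul, h2, h4, smul_mul_smul_comm, ← mul_pow]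

/-- **Existence of a good basis.** -/
theorem exists_good_basisM (hS : IsStandard H) {m Q : ℕ} (hQ : 1 < Q) {g : ℤ[X]}
    (hg : NoRelM m g Q) {s : ℕ} (hs : 0 < s) {π : A ⟶ A}
    (hA : IsAbelian H π Q s (fun _ : Unit => g))
    (hT : ∀ y : H.A A, H.Deg (2 * m) y → H.pull π y = ((Q ^ s : ℕ) : K) ^ m • y →
      y ∈ clSpan H A m) :
    ∃ (n : ℕ) (b : Basis (Fin n) K (H.A A)) (α : Fin n → K),
      (∀ t, H.pull π (b t) = α t • b t) ∧
      ∀ t (c : ℤ), α t = ((Q ^ s : ℕ) : K) ^ c →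
        ∃ l : ℕ, α t = ((Q ^ s : ℕ) : K) ^ l ∧ b t ∈ clSpan H A l := by
  have hfin := hS.finite A
  let val : RT g K → K := fun z => (z : K) ^ s
  have hU : Submodule.span K {v : H.A A | v ∈ H.gr A 1 ∧ ∃ y, H.pull π v = val y • v} =
      H.gr A 1 := by
    refine Eq.trans ?_ hA.eigen
    congr 1
    ext v
    constructor
    · rintro ⟨h1, ⟨z, i, hz⟩, h2⟩
      exact ⟨h1, i, z, hz, h2⟩
    · rintro ⟨h1, i, z, hz, h2⟩
      exact ⟨h1, ⟨z, i, hz⟩, h2⟩
  obtain ⟨n, b, α, hb⟩ := exists_basis (H.pull π) val (H.gr A 1) hU hA.generated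
  have hQs : ((Q ^ s : ℕ) : K) = (Q : K) ^ s := by push_cast; rfl
  obtain ⟨φ, hφ0, hφ1, hφ2, hφm⟩ := exists_embM g hg.monic Q K
  refine ⟨n, b, α, fun t => (hb t).1, fun t c hc => ?_⟩
  obtain ⟨-, L, hL1, hL2, hL3⟩ := hb t
  have hrel : ((L.map (fun e => e.2)).map fun x : RT g K => (x : K) ^ s).prod =
      ((Q : K) ^ s) ^ c := by
    rw [List.map_map, ← hQs, ← hc, hL3]
    rfl
  have hrel2 := hφ1 _ s c hrel
  have hm := hg.matched s hs ((L.map (fun e => e.2)).map φ) (by
    intro z hz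
    obtain ⟨x, -, rfl⟩ := List.mem_map.1 hz
    exact hφ0 x) c 1 one_pos (by
    rw [pow_one, pow_one, List.map_map]
    exact hrel2)
  rw [List.map_map] at hm
  have h1 := list_gradedM (H.pull π) m (fun x : RT g K => (x : K)) s (Q : K) (clSpan H A)
    one_mem_clSpan
    (fun i n a b ha hb => mul_mem_clSpan ha hb) (H.gr A 1 : Set (H.A A))
    (fun a ha b hb => hA.anticomm a b ha hb)
    (fun a ha b hb y y' e1 e2 e3 => by
      have h5 := hA.tate (a * b) (H.mul_mem ha hb) (by
        change H.pull π (a * b) = _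
        rw [map_mul, e1, e2, smul_mul_smul_comm, ← mul_pow, e3, hQs])
      exact h5)
    (fun E hE1 hE2 hE3 => by
      obtain ⟨h6, h7⟩ := list_deg (H := H) (A := A) (fun x : RT g K => (x : K)) s π E hE2
      refine hT _ ?_ ?_
      · rw [hE1] at h6
        push_cast at h6
        exact h6
      · rw [h7, hE3, hQs, ← pow_mul, ← pow_mul, mul_comm m s])
    φ (Q : ℂ) hφ2 (hφm m) hm L (List.Perm.refl _) hL1
  obtain ⟨l, h2, h3⟩ := h1
  refine ⟨l, ?_, ?_⟩
  · rw [hL3, hQs]
    exact h2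
  · rw [hL2]
    exact h3

theorem w14 : W14 := by
  intro m Q g hm hQ hR k _ 𝒱 C _ K _ _ _ H _ s B π hs hS hB hT c
  have hS' := Pool.Agent.W484.CK.isStandard_bridge hS
  have hB' := Pool.Agent.W484.CK.isAbelian_bridge hB
  obtain ⟨n, b, α, hb, hgood⟩ := exists_good_basisM hS' hQ hR hs hB' hT
  exact poleFormula_of_basis hS' hB'.frobenius (Nat.one_lt_pow hs.ne' hQ)
    b α hb hgood c

end Pool.Agent.H297.WT
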